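import Pool.Agent.H21.L.R_seed8.W540.BE.NF

set_option autoImplicit false

/-!
# Mean values of class functions at Frobenius elements
-/

namespace Pool.Agent.W540.BE

open Complex Filter Topology NumberField IsDedekindDomain Pool.Agent.W401.Cheb

theorem chebK : ChebK := W352.ChAbs.main chebotarev W54.ChTor.main

section

variable {F : Type} [Field F] [NumberField F]

theorem card_upto (P : HeightOneSpectrum (𝓞 F) → Prop) [DecidablePred P] (n : ℕ) :
    dens P n = (((upto F n).filter P).card : ℝ) / (Nat.primeCounting n : ℝ) := by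
  rw [dens]
  congr 2
  have h1 : Nat.card {v : HeightOneSpectrum (𝓞 F) // Ideal.absNorm v.asIdeal ≤ n ∧ P v} =
      (((upto F n).filter P : Finset (HeightOneSpectrum (𝓞 F))) : Set
        (HeightOneSpectrum (𝓞 F))).ncard := by
    have : {v : HeightOneSpectrum (𝓞 F) | Ideal.absNorm v.asIdeal ≤ n ∧ P v} =
        (((upto F n).filter P : Finset (HeightOneSpectrum (𝓞 F))) : Set
        (HeightOneSpectrum (𝓞 F))) := by
      ext v
      rw [Finset.mem_coe, Finset.mem_filter, mem_upto]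
      rfl
    rw [← this]
    rfl
  rw [h1, Set.ncard_coe_finset]

/-- Chebotarev's theorem for class functions. -/
theorem cheb_mean (U : Subgroup (GK F)) [U.Normal] (hU : IsOpen (U : Set (GK F)))
    [Finite (GK F ⧸ U)]
    (ψ : GK F ⧸ U → ℂ) (hψ : ∀ a g, ψ (g * a * g⁻¹) = ψ a)
    (σ : HeightOneSpectrum (𝓞 F) → GK F) (hσ : ∀ v, IsFrob v (σ v)) :
    Tendsto (fun n : ℕ => (∑ v ∈ upto F n, ψ (QuotientGroup.mk (σ v))) /
      (Nat.primeCounting n : ℂ)) atTop
      (𝓝 ((Nat.card (GK F ⧸ U) : ℂ)⁻¹ * ∑ᶠ q, ψ q)) := by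
  classical
  let Q := GK F ⧸ U
  letI : Fintype (GK F ⧸ U) := Fintype.ofFinite _
  letI : Fintype (ConjClasses (GK F ⧸ U)) := Fintype.ofFinite _
  have hQ0 : (Nat.card (GK F ⧸ U) : ℝ) ≠ 0 := by
    have : Nat.card (GK F ⧸ U) ≠ 0 := Nat.card_pos.ne'
    exact_mod_cast this
  -- the class of a Galois element
  set cl : GK F → ConjClasses (GK F ⧸ U) := fun g => ConjClasses.mk (QuotientGroup.mk g) with hcl
  set C : ConjClasses (GK F ⧸ U) → Set (GK F) := fun c => {g | cl g = c} with hC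
  set kc : ConjClasses (GK F ⧸ U) → ℕ := fun c =>
    (Finset.univ.filter fun q : GK F ⧸ U => ConjClasses.mk q = c).card with hkc
  have himg : ∀ c, ((QuotientGroup.mk : GK F → GK F ⧸ U) '' C c).ncard = kc c := by
    intro c
    have h1 : (QuotientGroup.mk : GK F → GK F ⧸ U) '' C c =
        ((Finset.univ.filter fun q : GK F ⧸ U => ConjClasses.mk q = c : Finset (GK F ⧸ U)) :
          Set (GK F ⧸ U)) := by
      ext q
      rw [Finset.mem_coe, Finset.mem_filter]
      constructor
      · rintro ⟨g, hg, rfl⟩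
        exact ⟨Finset.mem_univ _, hg⟩
      · rintro ⟨-, hq⟩
        obtain ⟨g, rfl⟩ := QuotientGroup.mk_surjective q
        exact ⟨g, hq, rfl⟩
    rw [h1, Set.ncard_coe_finset]
  have hdens : ∀ c, Tendsto (dens fun v : HeightOneSpectrum (𝓞 F) => ∃ σ ∈ C c, IsFrob v σ)
      atTop (𝓝 ((kc c : ℝ) / (Nat.card (GK F ⧸ U) : ℝ))) := by
    intro c
    have h1 := chebK F U hU (C c) ?_ ?_
    · rw [himg c] at h1
      exact h1
    · intro g hg τ
      rw [hC] at hg ⊢
      simp only [Set.mem_ofPred_eq, hcl] at hg ⊢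
      rw [← hg, ConjClasses.mk_eq_mk_iff_isConj, isConj_comm, isConj_iff]
      exact ⟨QuotientGroup.mk τ, rfl⟩
    · intro g hg u hu
      rw [hC] at hg ⊢
      simp only [Set.mem_ofPred_eq, hcl] at hg ⊢
      rw [← hg, QuotientGroup.mk_mul_of_mem g hu]
  have huniv : Tendsto (fun n => ((upto F n).card : ℝ) / (Nat.primeCounting n : ℝ)) atTop
      (𝓝 1) := by
    have h1 := chebK F U hU Set.univ (fun _ _ _ => Set.mem_univ _) (fun _ _ _ _ => Set.mem_univ _)
    have h2 : ((QuotientGroup.mk : GK F → GK F ⧸ U) '' Set.univ).ncard =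
        Nat.card (GK F ⧸ U) := by
      rw [Set.image_univ, Set.range_eq_univ.2 QuotientGroup.mk_surjective, Set.ncard_univ]
    rw [h2, div_self hQ0] at h1
    refine h1.congr fun n => ?_
    rw [card_upto]
    congr 3
    rw [Finset.filter_eq_self]
    intro v _
    exact ⟨σ v, Set.mem_univ _, hσ v⟩
  -- the set of primes with the chosen Frobenius in a class
  set A : ConjClasses (GK F ⧸ U) → ℕ → ℕ := fun c n =>
    ((upto F n).filter fun v => ∃ g ∈ C c, IsFrob v g).card with hA
  set A' : ConjClasses (GK F ⧸ U) → ℕ → ℕ := fun c n =>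
    ((upto F n).filter fun v => cl (σ v) = c).card with hA'
  have hle : ∀ c n, A' c n ≤ A c n := by
    intro c n
    refine Finset.card_le_card fun v hv => ?_
    rw [Finset.mem_filter] at hv ⊢
    exact ⟨hv.1, σ v, hv.2, hσ v⟩
  have hsum : ∀ n, ∑ c, A' c n = (upto F n).card := by
    intro n
    exact (Finset.card_eq_sum_card_fiberwise (f := fun v => cl (σ v)) (t := Finset.univ)
      fun v _ => Finset.mem_coe.2 (Finset.mem_univ _)).symm
  have hkcsum : ∑ c, kc c = Nat.card (GK F ⧸ U) := by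
    rw [Nat.card_eq_fintype_card, ← Finset.card_univ]
    exact (Finset.card_eq_sum_card_fiberwise (f := fun q : GK F ⧸ U => ConjClasses.mk q)
      (t := Finset.univ) fun v _ => Finset.mem_coe.2 (Finset.mem_univ _)).symm
  have hAd : ∀ c, Tendsto (fun n => (A c n : ℝ) / (Nat.primeCounting n : ℝ)) atTop
      (𝓝 ((kc c : ℝ) / (Nat.card (GK F ⧸ U) : ℝ))) := by
    intro c
    refine (hdens c).congr fun n => ?_
    rw [card_upto]
  set D : ConjClasses (GK F ⧸ U) → ℕ → ℝ := fun c n =>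
    ((A c n : ℝ) - A' c n) / (Nat.primeCounting n : ℝ) with hD
  have hD0 : ∀ c n, 0 ≤ D c n := by
    intro c n
    refine div_nonneg ?_ (Nat.cast_nonneg _)
    have := hle c n
    have : (A' c n : ℝ) ≤ A c n := by exact_mod_cast this
    linarith
  have hDsum : Tendsto (fun n => ∑ c, D c n) atTop (𝓝 0) := by
    have h1 : Tendsto (fun n => (∑ c, (A c n : ℝ) / (Nat.primeCounting n : ℝ)) -
        ((upto F n).card : ℝ) / (Nat.primeCounting n : ℝ)) atTop
        (𝓝 ((∑ c, (kc c : ℝ) / (Nat.card (GK F ⧸ U) : ℝ)) - 1)) :=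
      (tendsto_finsetSum _ fun c _ => hAd c).sub huniv
    have h2 : (∑ c, (kc c : ℝ) / (Nat.card (GK F ⧸ U) : ℝ)) - 1 = 0 := by
      rw [← Finset.sum_div, ← Nat.cast_sum, hkcsum, div_self hQ0, sub_self]
    rw [h2] at h1
    refine h1.congr fun n => ?_
    rw [← hsum n]
    push_cast
    rw [Finset.sum_div, ← Finset.sum_sub_distrib]
    exact Finset.sum_congr rfl fun c _ => by rw [hD]; ring
  have hDc : ∀ c, Tendsto (D c) atTop (𝓝 0) := by
    intro c
    refine squeeze_zero (fun n => hD0 c n) (fun n => ?_) hDsum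
    exact Finset.single_le_sum (f := fun c => D c n) (fun c _ => hD0 c n) (Finset.mem_univ c)
  have hA'd : ∀ c, Tendsto (fun n => (A' c n : ℝ) / (Nat.primeCounting n : ℝ)) atTop
      (𝓝 ((kc c : ℝ) / (Nat.card (GK F ⧸ U) : ℝ))) := by
    intro c
    have h1 := (hAd c).sub (hDc c)
    rw [sub_zero] at h1
    refine h1.congr fun n => ?_
    rw [hD]
    ring
  -- representatives
  choose q hq using fun c : ConjClasses (GK F ⧸ U) => ConjClasses.exists_rep c
  have hψq : ∀ (a : GK F ⧸ U) c, ConjClasses.mk a = c → ψ a = ψ (q c) := by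
    intro a c hac
    rw [← hq c, ConjClasses.mk_eq_mk_iff_isConj, isConj_iff] at hac
    obtain ⟨g, hg⟩ := hac
    rw [← hg, hψ]
  have hS : ∀ n, ∑ v ∈ upto F n, ψ (QuotientGroup.mk (σ v)) = ∑ c, (A' c n : ℂ) * ψ (q c) := by
    intro n
    rw [← Finset.sum_fiberwise_of_maps_to (s := upto F n) (t := Finset.univ)
      (g := fun v => cl (σ v)) fun v _ => Finset.mem_univ _]
    refine Finset.sum_congr rfl fun c _ => ?_
    rw [Finset.sum_congr rfl (g := fun _ => ψ (q c))]
    · rw [Finset.sum_const, nsmul_eq_mul]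
    · intro v hv
      rw [Finset.mem_filter] at hv
      exact hψq _ c hv.2
  have hT : ∑ᶠ a, ψ a = ∑ c, (kc c : ℂ) * ψ (q c) := by
    rw [finsum_eq_sum_of_fintype, ← Finset.sum_fiberwise_of_maps_to (s := Finset.univ)
      (t := Finset.univ) (g := fun a : GK F ⧸ U => ConjClasses.mk a) fun v _ => Finset.mem_univ _]
    refine Finset.sum_congr rfl fun c _ => ?_
    rw [Finset.sum_congr rfl (g := fun _ => ψ (q c))]
    · rw [Finset.sum_const, nsmul_eq_mul]
    · intro a ha
      rw [Finset.mem_filter] at ha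
      exact hψq _ c ha.2
  have hlim : Tendsto (fun n => ∑ c, (((A' c n : ℝ) / (Nat.primeCounting n : ℝ) : ℝ) : ℂ) *
      ψ (q c)) atTop (𝓝 (∑ c, (((kc c : ℝ) / (Nat.card (GK F ⧸ U) : ℝ) : ℝ) : ℂ) * ψ (q c))) := by
    refine tendsto_finsetSum _ fun c _ => ?_
    exact ((Complex.continuous_ofReal.tendsto _).comp (hA'd c)).mul_const _
  have hval : (∑ c, (((kc c : ℝ) / (Nat.card (GK F ⧸ U) : ℝ) : ℝ) : ℂ) * ψ (q c)) =
      (Nat.card (GK F ⧸ U) : ℂ)⁻¹ * ∑ᶠ q, ψ q := by
    rw [hT, Finset.mul_sum]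
    refine Finset.sum_congr rfl fun c _ => ?_
    push_cast
    ring
  rw [hval] at hlim
  refine hlim.congr fun n => ?_
  rw [hS n, Finset.sum_div]
  refine Finset.sum_congr rfl fun c _ => ?_
  push_cast
  ring

end

end Pool.Agent.W540.BE
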