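import Pool.Agent.H21.L.R_seed8.W540.BE.AbelG
import Pool.Agent.H21.L.R_seed8.W352.ChAbs.Main
import Pool.Agent.H21.L.R_seed8.W401.Cheb.Main

set_option autoImplicit false

/-!
# The primes of a number field
-/

namespace Pool.Agent.W540.BE

open Complex Filter Topology ComplexConjugate Pool.Agent.H341R2 NumberField IsDedekindDomain

section

variable (F : Type) [Field F] [NumberField F]

/-- Frobenius elements exist -/
theorem exists_isFrob (v : HeightOneSpectrum (𝓞 F)) :
    ∃ σ : W401.Cheb.GK F, W401.Cheb.IsFrob v σ := by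
  have hvm : v.asIdeal.IsMaximal := v.isMaximal
  obtain ⟨Q, hQm, hQv⟩ := Ideal.exists_ideal_over_maximal_of_isIntegral
    (S := 𝓞 (AlgebraicClosure F)) v.asIdeal (by
      rw [(RingHom.injective_iff_ker_eq_bot _).1
        (FaithfulSMul.algebraMap_injective (𝓞 F) (𝓞 (AlgebraicClosure F)))]
      exact bot_le)
  obtain ⟨σ, hσ⟩ := W352.ChAbs.exists_frob v Q hQv
  exact ⟨σ, Q, hQm, hQv, hσ⟩

/-- the norm of a prime -/
noncomputable def nm (v : HeightOneSpectrum (𝓞 F)) : ℕ := Ideal.absNorm v.asIdeal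

variable {F}

theorem two_le_nm (v : HeightOneSpectrum (𝓞 F)) : 2 ≤ nm F v := by
  have h0 : nm F v ≠ 0 := by
    rw [nm, Ne, Ideal.absNorm_eq_zero_iff]
    exact v.ne_bot
  have h1 : nm F v ≠ 1 := by
    rw [nm, Ne, Ideal.absNorm_eq_one_iff]
    exact v.isPrime.ne_top
  omega

/-- the fibre of the norm is contained in the set of primes above one rational prime -/
theorem fiber_sub (n : ℕ) : ∃ p : ℕ, p.Prime ∧
    {v : HeightOneSpectrum (𝓞 F) | nm F v = n} ⊆ {v | (p : 𝓞 F) ∈ v.asIdeal} := by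
  by_cases hn : ∃ v : HeightOneSpectrum (𝓞 F), nm F v = n
  · obtain ⟨v0, hv0⟩ := hn
    have h2 : n ≠ 1 := by
      have := two_le_nm v0
      omega
    refine ⟨n.minFac, Nat.minFac_prime h2, fun v hv => ?_⟩
    rw [Set.mem_ofPred_eq] at hv ⊢
    haveI : v.asIdeal.IsMaximal := v.isMaximal
    letI := Ideal.Quotient.field v.asIdeal
    haveI : Finite (𝓞 F ⧸ v.asIdeal) := Ideal.finiteQuotientOfFreeOfNeBot _ v.ne_bot
    cases nonempty_fintype (𝓞 F ⧸ v.asIdeal)
    obtain ⟨p, hc⟩ := CharP.exists (𝓞 F ⧸ v.asIdeal)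
    obtain ⟨k, hp, hk⟩ := FiniteField.card (𝓞 F ⧸ v.asIdeal) p
    have hN' : nm F v = p ^ (k : ℕ) := by
      rw [nm, Ideal.absNorm_apply, Submodule.cardQuot_apply, ← hk]
      exact Nat.card_eq_fintype_card
    have h3 : n.minFac = p := by
      rw [← hv, hN']
      exact hp.pow_minFac k.ne_zero
    rw [h3, ← Ideal.Quotient.eq_zero_iff_mem, map_natCast]
    exact CharP.cast_eq_zero _ _
  · refine ⟨2, Nat.prime_two, fun v hv => absurd ⟨v, hv⟩ hn⟩

theorem fiber_finite (n : ℕ) : {v : HeightOneSpectrum (𝓞 F) | nm F v = n}.Finite := by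
  obtain ⟨p, hp, h⟩ := fiber_sub (F := F) n
  exact (W352.ChAbs.over_le p hp).1.subset h

theorem fiber_card (n : ℕ) : {v : HeightOneSpectrum (𝓞 F) | nm F v = n}.ncard ≤
    Module.finrank ℚ F := by
  obtain ⟨p, hp, h⟩ := fiber_sub (F := F) n
  exact (Set.ncard_le_ncard h (W352.ChAbs.over_le p hp).1).trans (W352.ChAbs.over_le p hp).2

/-- the sum of a function on the primes over the primes of norm `n` -/
noncomputable def nf (g : HeightOneSpectrum (𝓞 F) → ℂ) (n : ℕ) : ℂ :=
  ∑ v ∈ (fiber_finite (F := F) n).toFinset, g v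

theorem norm_nf_le {g : HeightOneSpectrum (𝓞 F) → ℂ} {B : ℝ} (hg : ∀ v, ‖g v‖ ≤ B) (n : ℕ) :
    ‖nf g n‖ ≤ Module.finrank ℚ F * B := by
  have hB : 0 ≤ B := by
    obtain ⟨v⟩ : Nonempty (HeightOneSpectrum (𝓞 F)) := by
      obtain ⟨M, hM⟩ := Ideal.exists_maximal (𝓞 F)
      exact ⟨⟨M, hM.isPrime, Ring.ne_bot_of_isMaximal_of_not_isField hM
        (RingOfIntegers.not_isField F)⟩⟩
    exact (norm_nonneg _).trans (hg v)
  refine (norm_sum_le _ _).trans ?_
  refine (Finset.sum_le_card_nsmul _ _ B fun v _ => hg v).trans ?_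
  rw [nsmul_eq_mul]
  refine mul_le_mul_of_nonneg_right ?_ hB
  have := fiber_card (F := F) n
  rw [Set.ncard_eq_toFinset_card _ (fiber_finite n)] at this
  exact_mod_cast this

/-- the equivalence between primes and pairs (norm, prime of this norm) -/
theorem tsum_fiber {f : HeightOneSpectrum (𝓞 F) → ℂ} (hf : Summable f) :
    ∑' v, f v = ∑' n : ℕ, ∑ v ∈ (fiber_finite (F := F) n).toFinset, f v := by
  have e := Equiv.sigmaFiberEquiv (nm F)
  have h1 : ∑' v, f v = ∑' x : (Σ n : ℕ, {v // nm F v = n}), f x.2 := by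
    rw [← (Equiv.sigmaFiberEquiv (nm F)).tsum_eq]
    rfl
  have h2 : Summable fun x : (Σ n : ℕ, {v // nm F v = n}) => f x.2 :=
    (Equiv.sigmaFiberEquiv (nm F)).summable_iff.2 hf
  rw [h1, h2.tsum_sigma]
  refine tsum_congr fun n => ?_
  have h3 : ((fiber_finite (F := F) n).toFinset : Set (HeightOneSpectrum (𝓞 F))) =
      {v | nm F v = n} := by simp
  rw [← Finset.tsum_subtype', h3]
  rfl

theorem normSys : NormSys (nm F) := by
  refine ⟨two_le_nm, fun r hr => ?_⟩
  have h1 : Summable fun x : (Σ n : ℕ, {v // nm F v = n}) => (nm F x.2.1 : ℝ) ^ r := by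
    rw [summable_sigma_of_nonneg (fun x => by positivity)]
    have hfin : ∀ n : ℕ, Finite {v // nm F v = n} := fun n => (fiber_finite (F := F) n)
    refine ⟨fun n => ?_, ?_⟩
    · haveI := hfin n
      exact Summable.of_finite
    · have h2 : Summable fun n : ℕ => (Module.finrank ℚ F : ℝ) * (n : ℝ) ^ r :=
        (Real.summable_nat_rpow.2 hr).mul_left _
      refine Summable.of_nonneg_of_le (fun n => tsum_nonneg fun _ => by positivity)
        (fun n => ?_) h2
      haveI := hfin n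
      cases nonempty_fintype {v // nm F v = n}
      rw [tsum_fintype]
      have h3 : ∀ v : {v // nm F v = n}, (nm F v.1 : ℝ) ^ r = (n : ℝ) ^ r := fun v => by
        rw [v.2]
      simp only [h3]
      rw [Finset.sum_const, nsmul_eq_mul]
      refine mul_le_mul_of_nonneg_right ?_ (by positivity)
      have h4 := fiber_card (F := F) n
      have h5 : (Finset.univ : Finset {v // nm F v = n}).card =
          {v : HeightOneSpectrum (𝓞 F) | nm F v = n}.ncard := by
        rw [Finset.card_univ, ← Nat.card_eq_fintype_card]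
        rfl
      rw [h5]
      exact_mod_cast h4
  exact (Equiv.sigmaFiberEquiv (nm F)).summable_iff.1 h1

theorem summable_nm {g : HeightOneSpectrum (𝓞 F) → ℂ} {B : ℝ} (hg : ∀ v, ‖g v‖ ≤ B) {s : ℂ}
    (hs : 1 < s.re) : Summable fun v => g v * ((nm F v : ℕ) : ℂ) ^ (-s) := by
  refine Summable.of_norm_bounded ((normSys.summable (-s.re) (by linarith)).mul_left B)
    fun v => ?_
  rw [norm_mul, norm_cpowP normSys]
  exact mul_le_mul_of_nonneg_right (hg v) (by positivity)

theorem tsum_eq_LSeries {g : HeightOneSpectrum (𝓞 F) → ℂ} {B : ℝ} (hg : ∀ v, ‖g v‖ ≤ B) {s : ℂ}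
    (hs : 1 < s.re) :
    ∑' v, g v * ((nm F v : ℕ) : ℂ) ^ (-s) = LSeries (nf g) s := by
  rw [tsum_fiber (summable_nm hg hs), LSeries]
  refine tsum_congr fun n => ?_
  have h1 : ∀ v ∈ (fiber_finite (F := F) n).toFinset, g v * ((nm F v : ℕ) : ℂ) ^ (-s) =
      g v * (n : ℂ) ^ (-s) := by
    intro v hv
    rw [Set.Finite.mem_toFinset, Set.mem_ofPred_eq] at hv
    rw [hv]
  rw [Finset.sum_congr rfl h1, ← Finset.sum_mul]
  by_cases hn : n = 0
  · subst hn
    rw [LSeries.term_zero]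
    have : (fiber_finite (F := F) 0).toFinset = ∅ := by
      rw [Finset.eq_empty_iff_forall_notMem]
      intro v hv
      rw [Set.Finite.mem_toFinset, Set.mem_ofPred_eq] at hv
      have := two_le_nm v
      omega
    rw [this]
    simp
  · rw [LSeries.term_of_ne_zero hn, nf, Complex.cpow_neg, div_eq_mul_inv]

/-- the primes of norm at most `n` -/
noncomputable def upto (F : Type) [Field F] [NumberField F] (n : ℕ) :
    Finset (HeightOneSpectrum (𝓞 F)) := (W352.ChAbs.finite_le (K := F) n).toFinset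

theorem mem_upto {n : ℕ} {v : HeightOneSpectrum (𝓞 F)} : v ∈ upto F n ↔ nm F v ≤ n := by
  rw [upto, Set.Finite.mem_toFinset]
  rfl

theorem sum_nf (g : HeightOneSpectrum (𝓞 F) → ℂ) (n : ℕ) :
    ∑ k ∈ Finset.Icc 1 n, nf g k = ∑ v ∈ upto F n, g v := by
  classical
  rw [← Finset.sum_fiberwise_of_maps_to (s := upto F n) (t := Finset.Icc 1 n) (g := nm F)]
  · refine Finset.sum_congr rfl fun k hk => ?_
    rw [nf]
    refine Finset.sum_congr ?_ fun _ _ => rfl
    ext v
    rw [Set.Finite.mem_toFinset, Set.mem_ofPred_eq, Finset.mem_filter, mem_upto]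
    rw [Finset.mem_Icc] at hk
    constructor
    · intro h
      exact ⟨h ▸ hk.2, h⟩
    · exact fun h => h.2
  · intro v hv
    rw [mem_upto] at hv
    rw [Finset.mem_Icc]
    have := two_le_nm v
    exact ⟨by omega, hv⟩

/-- a bounded function on the primes of `F` with mean value `c` -/
theorem mean_edge {g : HeightOneSpectrum (𝓞 F) → ℂ} {B : ℝ} (hg : ∀ v, ‖g v‖ ≤ B) (c : ℝ)
    (hS : Tendsto (fun n : ℕ => (∑ v ∈ upto F n, g v) / (Nat.primeCounting n : ℂ)) atTop
      (𝓝 c)) (τ : ℝ) :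
    Tendsto (fun ε : ℝ =>
      (EP (nm F) ε fun v => (g v * ((nm F v : ℕ) : ℂ) ^ (-(τ * I))).re) / lam ε)
      (𝓝[>] 0) (𝓝 (if τ = 0 then c else 0)) := by
  have h1 := abel_mean (nf g) (Module.finrank ℚ F * B) (norm_nf_le hg) c
    (by simpa only [sum_nf] using hS) τ
  refine h1.congr' ?_
  filter_upwards [self_mem_nhdsWithin] with ε h0
  have hε : (0 : ℝ) < ε := h0
  have hre : 1 < (1 + ε + τ * I : ℂ).re := by simp [hε]
  congr 1
  rw [← tsum_eq_LSeries hg hre, Complex.re_tsum (summable_nm hg hre), EP]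
  refine tsum_congr fun v => ?_
  have hv0 : (0 : ℝ) ≤ nm F v := by positivity
  have hvc : ((nm F v : ℕ) : ℂ) ≠ 0 := by
    have := two_le_nm v
    exact_mod_cast (by omega : nm F v ≠ 0)
  have h2 : ((nm F v : ℕ) : ℂ) ^ (-(1 + ε + τ * I : ℂ)) = ((nm F v : ℕ) : ℂ) ^ (-(τ * I)) *
      (((nm F v : ℝ) ^ (-(1 + ε)) : ℝ) : ℂ) := by
    rw [Complex.ofReal_cpow hv0]
    push_cast
    rw [← Complex.cpow_add _ _ hvc]
    congr 1
    ring
  rw [h2, ← mul_assoc, Complex.re_mul_ofReal]

end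

end Pool.Agent.W540.BE
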