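import Pool.Agent.H21.L.R_seed8.W540.BE.Rep

set_option autoImplicit false

/-!
# Representations with a normal subgroup acting trivially
-/

namespace Pool.Agent.W540.BE

open ComplexConjugate

section

variable {G : Type*} [Group G] (U : Subgroup G) [U.Normal]

/-- the representation of the quotient group -/
noncomputable def qrep {V : Type*} [AddCommGroup V] [Module ℂ V] (ρ : Representation ℂ G V)
    (h : ∀ u ∈ U, ρ u = 1) : Representation ℂ (G ⧸ U) V :=
  QuotientGroup.lift U ρ fun u hu => h u hu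

theorem qrep_mk {V : Type*} [AddCommGroup V] [Module ℂ V] (ρ : Representation ℂ G V)
    (h : ∀ u ∈ U, ρ u = 1) (g : G) : qrep U ρ h (QuotientGroup.mk g) = ρ g := rfl

theorem qrep_irr {V : Type*} [AddCommGroup V] [Module ℂ V] (ρ : Representation ℂ G V)
    (h : ∀ u ∈ U, ρ u = 1) (hi : ρ.IsIrreducible) : (qrep U ρ h).IsIrreducible := by
  have hi' : IsSimpleOrder (Subrepresentation ρ) := hi
  let e : Subrepresentation (qrep U ρ h) ≃o Subrepresentation ρ :=
    { toFun := fun S => ⟨S.toSubmodule, fun g v hv => S.apply_mem_toSubmodule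
        (QuotientGroup.mk g) hv⟩
      invFun := fun S => ⟨S.toSubmodule, fun g v hv => by
        obtain ⟨g, rfl⟩ := QuotientGroup.mk_surjective g
        exact S.apply_mem_toSubmodule g hv⟩
      left_inv := fun S => rfl
      right_inv := fun S => rfl
      map_rel_iff' := Iff.rfl }
  exact (OrderIso.isSimpleOrder_iff e).2 hi'

theorem qrep_equiv {V W : Type*} [AddCommGroup V] [Module ℂ V] [AddCommGroup W] [Module ℂ W]
    (ρ : Representation ℂ G V) (h : ∀ u ∈ U, ρ u = 1)
    (σ : Representation ℂ G W) (h' : ∀ u ∈ U, σ u = 1) :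
    Nonempty ((qrep U ρ h).Equiv (qrep U σ h')) ↔ Nonempty (ρ.Equiv σ) := by
  constructor
  · rintro ⟨e⟩
    exact ⟨{ e with isIntertwining' := fun g => e.isIntertwining' (QuotientGroup.mk g) }⟩
  · rintro ⟨e⟩
    exact ⟨{ e with
      isIntertwining' := fun g => by
        obtain ⟨g, rfl⟩ := QuotientGroup.mk_surjective g
        exact e.isIntertwining' g }⟩

/-- orthogonality relations -/
theorem ortho [Finite (G ⧸ U)] {n n' : ℕ} (ρ : Representation ℂ G (Fin n → ℂ))
    (h : ∀ u ∈ U, ρ u = 1) (hi : ρ.IsIrreducible)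
    (σ : Representation ℂ G (Fin n' → ℂ)) (h' : ∀ u ∈ U, σ u = 1) (hi' : σ.IsIrreducible) :
    open scoped Classical in
    (Nat.card (G ⧸ U) : ℂ)⁻¹ * ∑ᶠ q : G ⧸ U, (qrep U ρ h).character q *
      (qrep U σ h').character q⁻¹ = if Nonempty (ρ.Equiv σ) then 1 else 0 := by
  classical
  letI : Fintype (G ⧸ U) := Fintype.ofFinite _
  have hne : (Nat.card (G ⧸ U) : ℂ) ≠ 0 := by
    have : Nat.card (G ⧸ U) ≠ 0 := Nat.card_pos.ne'
    exact_mod_cast this
  letI : Invertible (Nat.card (G ⧸ U) : ℂ) := invertibleOfNonzero hne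
  haveI := qrep_irr U ρ h hi
  haveI := qrep_irr U σ h' hi'
  have h1 := Representation.char_orthonormal (qrep U ρ h) (qrep U σ h')
  rw [finsum_eq_sum_of_fintype, h1]
  have h2 : Nonempty ((qrep U σ h').Equiv (qrep U ρ h)) ↔ Nonempty (ρ.Equiv σ) := by
    rw [qrep_equiv]
    exact ⟨fun ⟨e⟩ => ⟨e.symm⟩, fun ⟨e⟩ => ⟨e.symm⟩⟩
  simp only [h2]

/-- the operators have finite order -/
theorem rho_pow [Finite (G ⧸ U)] {V : Type*} [AddCommGroup V] [Module ℂ V]
    (ρ : Representation ℂ G V) (h : ∀ u ∈ U, ρ u = 1) (g : G) :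
    (ρ g) ^ (Nat.card (G ⧸ U)) = 1 := by
  rw [← qrep_mk U ρ h, ← map_pow, pow_card_eq_one', map_one]

theorem char_conj_eq [Finite (G ⧸ U)] {n : ℕ} (ρ : Representation ℂ G (Fin n → ℂ))
    (h : ∀ u ∈ U, ρ u = 1) (g : G) : conj (ρ.character g⁻¹) = ρ.character g := by
  refine trace_conj (ρ g⁻¹) (ρ g) ?_ (m := Nat.card (G ⧸ U)) Nat.card_pos
    (rho_pow U ρ h g⁻¹)
  rw [← map_mul, inv_mul_cancel, map_one]

theorem norm_char_le [Finite (G ⧸ U)] {n : ℕ} (ρ : Representation ℂ G (Fin n → ℂ))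
    (h : ∀ u ∈ U, ρ u = 1) (g : G) : ‖ρ.character g‖ ≤ n := by
  obtain ⟨s, h1, h2, h3, -⟩ := exists_eigs (ρ g) (m := Nat.card (G ⧸ U)) Nat.card_pos
    (rho_pow U ρ h g)
  rw [Representation.character, h3]
  have h4 : (s.map fun l => ‖l‖).sum = n := by
    have : s.map (fun l => ‖l‖) = s.map fun _ => (1 : ℝ) := Multiset.map_congr rfl fun l hl => h2 l hl
    rw [this, Multiset.map_const', Multiset.sum_replicate, h1]
    simp
  rw [← h4]
  exact norm_multiset_sum_le s

end

end Pool.Agent.W540.BE
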